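import Pool.Agent.W774.TL.Stm
import Pool.Agent.Helper981.Flow

/-!
TL-COMPL: global existence for the Hamiltonian system with an additional potential.
-/

set_option autoImplicit false

namespace Pool.Agent.W599.TL

open Pool.Agent.W774.TL Set Filter Topology
open scoped ContDiff

/-- `Z` as a function on the product. -/
noncomputable def ZZ (q : ℝ × ℝ × ℝ) : ℝ := Z q.1 q.2.1 q.2.2

lemma dp_eq (h1 : P_SMOOTH) (h2 : P_DER) (x p t : ℝ) :
    (∑' j : ℤ, (j : ℝ) * E j x p t) = fderiv ℝ ZZ (x, p, t) (0, 1, 0) := by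
  have hd : DifferentiableAt ℝ ZZ (x, p, t) := (h1.differentiable (by simp)) _
  have hc : HasDerivAt (fun s : ℝ => ((x, s, t) : ℝ × ℝ × ℝ)) (0, 1, 0) p :=
    (hasDerivAt_const p x).prodMk ((hasDerivAt_id p).prodMk (hasDerivAt_const p t))
  have h3 := hd.hasFDerivAt.comp_hasDerivAt p hc
  exact ((h2 x p t).2.1).unique h3

lemma dx_eq (h1 : P_SMOOTH) (h2 : P_DER) (x p t : ℝ) :
    (-∑' j : ℤ, (3 : ℝ) ^ j.natAbs * Co (x - j * t) * E j x p t)
      = fderiv ℝ ZZ (x, p, t) (1, 0, 0) := by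
  have hd : DifferentiableAt ℝ ZZ (x, p, t) := (h1.differentiable (by simp)) _
  have hc : HasDerivAt (fun s : ℝ => ((s, p, t) : ℝ × ℝ × ℝ)) (1, 0, 0) x :=
    (hasDerivAt_id x).prodMk ((hasDerivAt_const x p).prodMk (hasDerivAt_const x t))
  have h3 := hd.hasFDerivAt.comp_hasDerivAt x hc
  exact ((h2 x p t).2.2.1).unique h3

lemma hp_cd (h1 : P_SMOOTH) (h2 : P_DER) :
    ContDiff ℝ 1 (fun q : ℝ × ℝ × ℝ => hp q.1 q.2.1 q.2.2) := by
  have hZ : ContDiff ℝ (⊤ : ℕ∞) ZZ := h1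
  have hf : ContDiff ℝ 1 (fun q : ℝ × ℝ × ℝ => fderiv ℝ ZZ q (0, 1, 0)) :=
    (ContDiff.fderiv_right (m := 1) (n := 2) (hZ.of_le (WithTop.coe_le_coe.2 le_top : ((2 : ℕ∞) : WithTop ℕ∞) ≤ _)) (by norm_num)).clm_apply contDiff_const
  have he : (fun q : ℝ × ℝ × ℝ => hp q.1 q.2.1 q.2.2)
      = fun q => fderiv ℝ ZZ q (0, 1, 0) / ZZ q := by
    funext q
    unfold hp
    rw [dp_eq h1 h2]
    rfl
  rw [he]
  exact hf.div (hZ.of_le (by exact_mod_cast le_top)) (fun q => (h2 q.1 q.2.1 q.2.2).1.ne')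

lemma fo_cd (h1 : P_SMOOTH) (h2 : P_DER) :
    ContDiff ℝ 1 (fun q : ℝ × ℝ × ℝ => fo q.1 q.2.1 q.2.2) := by
  have hZ : ContDiff ℝ (⊤ : ℕ∞) ZZ := h1
  have hf : ContDiff ℝ 1 (fun q : ℝ × ℝ × ℝ => fderiv ℝ ZZ q (1, 0, 0)) :=
    (ContDiff.fderiv_right (m := 1) (n := 2) (hZ.of_le (WithTop.coe_le_coe.2 le_top : ((2 : ℕ∞) : WithTop ℕ∞) ≤ _)) (by norm_num)).clm_apply contDiff_const
  have he : (fun q : ℝ × ℝ × ℝ => fo q.1 q.2.1 q.2.2)
      = fun q => -(fderiv ℝ ZZ q (1, 0, 0)) / ZZ q := by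
    funext q
    unfold fo
    rw [← dx_eq h1 h2, neg_neg]
    rfl
  rw [he]
  exact hf.neg.div (hZ.of_le (by exact_mod_cast le_top)) (fun q => (h2 q.1 q.2.1 q.2.2).1.ne')

lemma Df_eq {n : ℕ} {f : (Fin n → ℝ) → ℝ → ℝ} (hf : C2 f) (i : Fin n) (x : Fin n → ℝ) (t : ℝ) :
    Df f i x t = fderiv ℝ (fun q : (Fin n → ℝ) × ℝ => f q.1 q.2) (x, t) (Pi.single i 1, 0) := by
  have hd : DifferentiableAt ℝ (fun q : (Fin n → ℝ) × ℝ => f q.1 q.2) (x, t) :=
    (hf.differentiable (by norm_num)) _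
  have hu : HasDerivAt (fun s : ℝ => Function.update x i s) (Pi.single i 1) (x i) :=
    hasDerivAt_update x i (x i)
  have hc : HasDerivAt (fun s : ℝ => ((Function.update x i s, t) : (Fin n → ℝ) × ℝ))
      (Pi.single i 1, 0) (x i) := hu.prodMk (hasDerivAt_const _ t)
  have hx : ((Function.update x i (x i), t) : (Fin n → ℝ) × ℝ) = (x, t) := by
    rw [Function.update_eq_self]
  have hd' : HasFDerivAt (fun q : (Fin n → ℝ) × ℝ => f q.1 q.2)
      (fderiv ℝ (fun q : (Fin n → ℝ) × ℝ => f q.1 q.2) (x, t))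
      (Function.update x i (x i), t) := by
    rw [hx]; exact hd.hasFDerivAt
  have h3 := hd'.comp_hasDerivAt (x i) hc
  exact h3.deriv

lemma Df_cd {n : ℕ} {f : (Fin n → ℝ) → ℝ → ℝ} (hf : C2 f) (i : Fin n) :
    ContDiff ℝ 1 (fun q : (Fin n → ℝ) × ℝ => Df f i q.1 q.2) := by
  have he : (fun q : (Fin n → ℝ) × ℝ => Df f i q.1 q.2)
      = fun q => fderiv ℝ (fun q : (Fin n → ℝ) × ℝ => f q.1 q.2) q (Pi.single i 1, 0) := by
    funext q
    exact Df_eq hf i q.1 q.2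
  rw [he]
  exact (ContDiff.fderiv_right (m := 1) hf (by norm_num)).clm_apply contDiff_const

/-- the autonomous field on the extended phase space. -/
noncomputable def FF {n : ℕ} (f : (Fin n → ℝ) → ℝ → ℝ)
    (z : (Fin n → ℝ) × (Fin n → ℝ) × ℝ) : (Fin n → ℝ) × (Fin n → ℝ) × ℝ :=
  (fun i => hp (z.1 i) (z.2.1 i) z.2.2,
    fun i => fo (z.1 i) (z.2.1 i) z.2.2 + Df f i z.1 z.2.2, 1)

lemma FF_cd (h1 : P_SMOOTH) (h2 : P_DER) {n : ℕ} {f : (Fin n → ℝ) → ℝ → ℝ} (hf : C2 f) :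
    ContDiff ℝ 1 (FF f) := by
  have hc : ∀ i : Fin n, ContDiff ℝ 1
      (fun z : (Fin n → ℝ) × (Fin n → ℝ) × ℝ => ((z.1 i, z.2.1 i, z.2.2) : ℝ × ℝ × ℝ)) := by
    intro i
    fun_prop
  have hc' : ContDiff ℝ 1
      (fun z : (Fin n → ℝ) × (Fin n → ℝ) × ℝ => ((z.1, z.2.2) : (Fin n → ℝ) × ℝ)) := by
    fun_prop
  refine ContDiff.prodMk ?_ (ContDiff.prodMk ?_ contDiff_const)
  · rw [contDiff_pi]
    intro i
    exact (hp_cd h1 h2).comp (hc i)
  · rw [contDiff_pi]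
    intro i
    exact ((fo_cd h1 h2).comp (hc i)).add ((Df_cd hf i).comp hc')

lemma FF_bd (h3 : P_GROW) {n : ℕ} {f : (Fin n → ℝ) → ℝ → ℝ} {G : ℝ} (hG0 : 0 ≤ G)
    (hG : ∀ (i : Fin n) (x : Fin n → ℝ) (t : ℝ), |Df f i x t| ≤ G)
    (z : (Fin n → ℝ) × (Fin n → ℝ) × ℝ) : ‖FF f z‖ ≤ (100 + G) * (1 + ‖z‖) := by
  have hz0 : 0 ≤ ‖z‖ := norm_nonneg z
  have hpz : ∀ i, |z.2.1 i| ≤ ‖z‖ := by
    intro i
    have e1 : ‖z.2.1 i‖ ≤ ‖z.2.1‖ := norm_le_pi_norm _ i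
    have e2 : ‖z.2.1‖ ≤ ‖z.2‖ := norm_fst_le _
    have e3 : ‖z.2‖ ≤ ‖z‖ := norm_snd_le _
    rw [← Real.norm_eq_abs]
    exact e1.trans (e2.trans e3)
  have hGz : 0 ≤ G * ‖z‖ := mul_nonneg hG0 hz0
  have hB : 0 ≤ (100 + G) * (1 + ‖z‖) := by positivity
  unfold FF
  refine max_le ?_ (max_le ?_ ?_)
  · refine (pi_norm_le_iff_of_nonneg hB).2 (fun i => ?_)
    have := (h3 (z.1 i) (z.2.1 i) z.2.2).2
    have h5 := hpz i
    rw [Real.norm_eq_abs]
    nlinarith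
  · refine (pi_norm_le_iff_of_nonneg hB).2 (fun i => ?_)
    have h4 := (h3 (z.1 i) (z.2.1 i) z.2.2).1
    have h5 := hpz i
    have h6 := hG i z.1 z.2.2
    have h7 := abs_add_le (fo (z.1 i) (z.2.1 i) z.2.2) (Df f i z.1 z.2.2)
    rw [Real.norm_eq_abs]
    nlinarith
  · have : ‖(1 : ℝ)‖ = 1 := norm_one
    show ‖(1 : ℝ)‖ ≤ _
    rw [this]
    nlinarith

theorem compl_thm (h1 : P_SMOOTH) (h2 : P_DER) (h3 : P_GROW) (h4 : P_GB) : P_COMPL := by
  intro n f hf hper t0 x0 p0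
  obtain ⟨G, hG0, hG⟩ := h4 n f hf hper
  obtain ⟨α, ha0, ha⟩ := Pool.Agent.Helper981.global_sol (F := FF f) (FF_cd h1 h2 hf)
    (A := 100 + G) (by positivity) (FF_bd h3 hG0 hG) (x0, p0, t0)
  -- the last component
  have hT : ∀ s, (α s).2.2 = t0 + s := by
    have hd : ∀ s, HasDerivAt (fun s => (α s).2.2) 1 s := fun s => ((ha s).snd).snd
    have hd2 : ∀ s, HasDerivAt (fun s => (α s).2.2 - s) 0 s := by
      intro s
      have := (hd s).fun_sub (hasDerivAt_id s)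
      simpa using this
    have hc := is_const_of_deriv_eq_zero (f := fun s => (α s).2.2 - s)
      (fun s => (hd2 s).differentiableAt) (fun s => (hd2 s).deriv)
    intro s
    have h5 := hc s 0
    simp only [ha0, sub_zero] at h5
    linarith
  have hsh : ∀ t : ℝ, HasDerivAt (fun t => α (t - t0)) (FF f (α (t - t0))) t := by
    intro t
    exact (ha (t - t0)).comp_sub_const t t0
  refine ⟨fun t => (α (t - t0)).1, fun t => (α (t - t0)).2.1, ?_, ?_, ?_⟩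
  · simp [ha0]
  · simp [ha0]
  · intro t
    have e : (α (t - t0)).2.2 = t := by rw [hT]; ring
    have hx : HasDerivAt (fun t => (α (t - t0)).1) (FF f (α (t - t0))).1 t := (hsh t).fst
    have hy : HasDerivAt (fun t => (α (t - t0)).2.1) (FF f (α (t - t0))).2.1 t :=
      ((hsh t).snd).fst
    constructor
    · have : (FF f (α (t - t0))).1 = fun i => hp ((α (t - t0)).1 i) ((α (t - t0)).2.1 i) t := by
        unfold FF
        simp only [e]
      rw [this] at hx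
      exact hx
    · have : (FF f (α (t - t0))).2.1
          = fun i => fo ((α (t - t0)).1 i) ((α (t - t0)).2.1 i) t + Df f i (α (t - t0)).1 t := by
        unfold FF
        simp only [e]
      rw [this] at hy
      exact hy

end Pool.Agent.W599.TL
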